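import Pool.Agent.U390.NT.Fin
import Pool.Agent.U605.ST.Side

/-! The base vectors: near-uniform or equal multiplicities, a tail and simple points. -/

namespace Pool.Agent.U390.NT

open Finset Pool.Agent.TH176.Nag Pool.Agent.TH603.Sur Pool.Agent.TH603.Cut Pool.Agent.H932R3
open Pool.Agent.TH760.EN Pool.Agent.TH641.UM Pool.Agent.TH2.NU Pool.Agent.U605.ST

/-- The base vectors: the multiplicities at the points of `S` are `m` or `m + 1` (or all equal to
`m`), `|S| ≤ 2 m`; the others are at most `T`, which is bounded by about `|S| / 24` (or `|S| / 8`),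
and the sum of the squares of those of them which are larger than `1` is at most `T (m - T)`. -/
def Base {h : ℕ} (v : Fin h → ℕ) : Prop :=
  ∃ (S : Finset (Fin h)) (m T : ℕ), S.card ≤ 2 * m ∧
    (((∀ i ∈ S, v i = m ∨ v i = m + 1) ∧
        24 * (T : ℝ) + 16 * √(S.card : ℝ) / 3 + 95 ≤ S.card) ∨
      ((∀ i ∈ S, v i = m) ∧ 149 ≤ S.card ∧
        8 * (T : ℝ) + 8 * √(S.card : ℝ) / 3 + 29 ≤ S.card)) ∧
    (∀ j, j ∉ S → v j ≤ T) ∧
    ∑ j ∈ univ.filter (fun j => j ∉ S ∧ 2 ≤ v j), v j ^ 2 + T ^ 2 ≤ T * m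

/-- **The expected dimension in every degree** for base vectors -/
theorem base_exp {h : ℕ} {v : Fin h → ℕ} (hv : Base v) :
    ∃ F : MvPolynomial (Fin h × Fin 2) ℚ, F ≠ 0 ∧ ∀ {L : Type} [Field L] [CharZero L]
      (P : Fin h → Fin 2 → L), MvPolynomial.aeval (fun ij : Fin h × Fin 2 => P ij.1 ij.2) F ≠ 0 →
      ∀ d, ExpDim L v P d := by
  classical
  obtain ⟨S, m, T, hnm, hw, hT, hQ⟩ := hv
  let e : Fin S.card ↪ Fin h := (S.orderEmbOfFin rfl).toEmbedding
  have he : Set.range e = (↑S : Set (Fin h)) := S.range_orderEmbOfFin rfl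
  have hmem : ∀ i, e i ∈ S := fun i => S.orderEmbOfFin_mem rfl i
  refine expDim_of_parts v e fun d => ?_
  have hrange : ∀ j, j ∈ Set.range e ↔ j ∈ S := fun j => by rw [he]; exact mem_coe
  have hsum : ∑ j : {j : Fin h // ¬ (j ∈ Set.range e ∨ v j ≤ 1)}, v j.1 ^ 2 =
      ∑ j ∈ univ.filter (fun j => j ∉ S ∧ 2 ≤ v j), v j ^ 2 := by
    refine (sum_subtype (univ.filter fun j => j ∉ S ∧ 2 ≤ v j)
      (p := fun j => ¬ (j ∈ Set.range e ∨ v j ≤ 1)) (fun j => ?_) (fun j => v j ^ 2)).symm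
    rw [mem_filter]
    have := hrange j
    constructor
    · rintro ⟨-, h1, h2⟩ (h3 | h3)
      · exact h1 (this.1 h3)
      · omega
    · intro h1
      refine ⟨mem_univ _, fun h2 => h1 (Or.inl (this.2 h2)), ?_⟩
      by_contra h2
      exact h1 (Or.inr (by omega))
  have hT' : ∀ j : {j : Fin h // ¬ (j ∈ Set.range e ∨ v j ≤ 1)}, v j.1 ≤ T := fun j =>
    hT j.1 fun h => j.2 (Or.inl ((hrange _).2 h))
  rw [← hsum] at hQ
  have hr1 : Sur (fun i : {j : Fin h // ¬ (j ∈ Set.range e ∨ v j ≤ 1)} => v i.1)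
      (Rect T (2 * m)) := by
    refine Sur_rect hT' hT' ?_
    have e1 : T * (2 * m) = 2 * (T * m) := by ring
    rw [e1]
    nlinarith
  have hr2 : Sur (fun i : {j : Fin h // ¬ (j ∈ Set.range e ∨ v j ≤ 1)} => v i.1)
      (Rect (2 * T) m) := by
    refine Sur_rect hT' (fun j => (hT' j).trans (by omega)) ?_
    have e1 : 2 * T * m = 2 * (T * m) := by ring
    have e2 : 2 * T * T = 2 * T ^ 2 := by ring
    rw [e1, e2]
    omega
  rcases hw with ⟨h1, h2⟩ | ⟨h1, h2, h3⟩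
  · exact ES_near (T := T) hnm (fun i => h1 _ (hmem i)) hr1 hr2 h2 d
  · exact ES_uni (T := T) h2 hnm (fun i => h1 _ (hmem i)) hr1 hr2 h3 d

/-- The good classes: on one side of `χ = 0` with a base vector. -/
def Good {h : ℕ} (d : ℕ) (w : Fin h → ℕ) : Prop :=
  ∃ v : Fin h → ℕ, Base v ∧
    (((∀ i, w i ≤ v i) ∧ ∑ i, (v i + 1).choose 2 ≤ (d + 2).choose 2) ∨
      ((∀ i, v i ≤ w i) ∧ (d + 2).choose 2 ≤ ∑ i, (v i + 1).choose 2))

theorem good_exp {h d : ℕ} {w : Fin h → ℕ} (hw : Good d w) {K : Type} [Field K] [CharZero K]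
    {P : Fin h → Fin 2 → K}
    (hP : AlgebraicIndependent ℚ (fun ij : Fin h × Fin 2 => P ij.1 ij.2)) :
    ExpDim K w P d := by
  obtain ⟨v, hv, hs⟩ := hw
  obtain ⟨F, hF, hF'⟩ := base_exp hv
  exact expDim_side (hF' P (fun h0 => hF (hP.eq_zero_of_aeval_eq_zero F h0)) d) hs

end Pool.Agent.U390.NT
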