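import Mathlib

/-! The choice of `p` in the middle case, with `c` small points and `V` further conditions. -/

namespace Pool.Agent.U390.NT

theorem mid {N B c μ d x0 x2 n V : ℕ} {y z : ℝ} (hn : n = 4 * N + c) (hc : c ≤ 5) (hN : 36 ≤ N)
    (hB : 4 * N ≤ B) (hμ1 : B ≤ 2 * μ + 2) (hμ2 : 2 * μ ≤ B) (hx2 : x2 ≤ N)
    (hy : y = √(n : ℝ) * (2 * d + 3) - (4 * N * B + 2 * N + 2 * c * μ + c))
    (hG1 : (c : ℝ) ≤ 2 * N + y + n) (hG2 : 2 * N + c + y ≤ n)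
    (hz : z = 2 * x2 - y + 4 * V / B) (hz0 : 1 ≤ z) (hz1 : z + 5 ≤ 4 * x0) :
    ∃ p : ℕ, p + 1 ≤ x0 ∧
      (d + 1) * (d + 2) + 2 * (p * B) ≤
        2 * ((B + 1) / 2 * x2) + N * (B * (B + 1)) + c * (μ * (μ + 1)) + 2 * V ∧
      2 * ((B + 1) / 2 * x2) + N * (B * (B + 1)) + c * (μ * (μ + 1)) + 2 * V ≤
        (d + 1) * (d + 2) + 2 * ((p + 1) * B) ∧
      z - 0.6 < 4 * ((p : ℝ) + 1) ∧ 4 * (p : ℝ) ≤ z + 0.55 := by
  have hN' : (36 : ℝ) ≤ N := by exact_mod_cast hN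
  have hB' : 4 * (N : ℝ) ≤ B := by exact_mod_cast hB
  have hnR : (n : ℝ) = 4 * N + c := by rw [hn]; push_cast; ring
  have hc0 : (0 : ℝ) ≤ c := Nat.cast_nonneg c
  have hc5 : (c : ℝ) ≤ 5 := by exact_mod_cast hc
  have hx2R : (x2 : ℝ) ≤ N := by exact_mod_cast hx2
  have hs2 : √(n : ℝ) ^ 2 = n := Real.sq_sqrt (by positivity)
  generalize √(n : ℝ) = s at *
  obtain ⟨q, hq⟩ : ∃ q : ℕ, q = (B + 1) / 2 := ⟨_, rfl⟩
  rw [← hq]
  have hq1 : (B : ℝ) ≤ 2 * q := by exact_mod_cast (by omega : B ≤ 2 * q)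
  have hq2 : 2 * (q : ℝ) ≤ B + 1 := by exact_mod_cast (by omega : 2 * q ≤ B + 1)
  have hBpos : (0 : ℝ) < B := by linarith
  have hNpos : (0 : ℝ) < N := by linarith
  have hnpos : (0 : ℝ) < n := by rw [hnR]; positivity
  have hx20 : (0 : ℝ) ≤ x2 := Nat.cast_nonneg _
  obtain ⟨t, ht⟩ : ∃ t : ℝ, t = 2 * μ - B := ⟨_, rfl⟩
  have ht1 : -2 ≤ t := by
    have : (B : ℝ) ≤ 2 * μ + 2 := by exact_mod_cast hμ1
    rw [ht]; linarith
  have ht2 : t ≤ 0 := by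
    have : 2 * (μ : ℝ) ≤ B := by exact_mod_cast hμ2
    rw [ht]; linarith
  have hμt : (μ : ℝ) = (B + t) / 2 := by rw [ht]; ring
  obtain ⟨G, hG⟩ : ∃ G : ℝ, G = 2 * N + c * (1 + t) := ⟨_, rfl⟩
  obtain ⟨C, hCdef⟩ : ∃ C : ℤ, C = 2 * ((q : ℤ) * x2) + N * (B * (B + 1)) + c * (μ * (μ + 1)) -
      (d + 1) * (d + 2) + 2 * V := ⟨_, rfl⟩
  have hX : s * (2 * d + 3) = n * B + G + y := by
    rw [hy, hG, hnR, hμt]; ring
  have hX2 : (n : ℝ) * (2 * d + 3) ^ 2 = (n * B + G + y) ^ 2 := by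
    rw [← hX, mul_pow, hs2]
  have hC : 4 * (n : ℝ) * C = 8 * n * q * x2 + n * (c * t * (t + 2)) - 2 * n * B * y -
      (G + y) ^ 2 + n + 8 * n * V := by
    rw [hCdef]
    push_cast
    rw [hμt]
    have e1 : 4 * (n : ℝ) * ((d + 1) * (d + 2)) = (n * B + G + y) ^ 2 - n := by
      rw [← hX2]; ring
    have e2 : 4 * (n : ℝ) * (2 * (q * x2) + N * (B * (B + 1)) + c * ((B + t) / 2 * ((B + t) / 2 + 1)) -
        (d + 1) * (d + 2) + 2 * V) = 8 * n * q * x2 + n * (4 * N * (B * (B + 1)) +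
        c * ((B + t) * ((B + t) + 2))) - 4 * (n : ℝ) * ((d + 1) * (d + 2)) + 8 * n * V := by ring
    rw [e2, e1]
    have e3 : 4 * (N : ℝ) * (B * (B + 1)) + c * ((B + t) * ((B + t) + 2)) =
        n * B ^ 2 + 2 * G * B + c * t * (t + 2) := by
      rw [hnR, hG]; ring
    rw [e3]
    ring
  have hct1 : -(c : ℝ) ≤ c * (1 + t) := by
    have h1 : (c : ℝ) * (-1) ≤ c * (1 + t) := mul_le_mul_of_nonneg_left (by linarith) hc0
    linarith
  have hct2 : (c : ℝ) * (1 + t) ≤ c := by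
    have h1 : (c : ℝ) * (1 + t) ≤ c * 1 := mul_le_mul_of_nonneg_left (by linarith) hc0
    linarith
  have hGy : (G + y) ^ 2 ≤ n ^ 2 := by
    apply sq_le_sq'
    · rw [hG]
      linarith
    · rw [hG]
      linarith
  have htt1 : (c : ℝ) * t * (t + 2) ≤ 0 := by
    have : (c : ℝ) * t ≤ 0 := mul_nonpos_of_nonneg_of_nonpos hc0 ht2
    exact mul_nonpos_of_nonpos_of_nonneg this (by linarith)
  have htt2 : -5 ≤ (c : ℝ) * t * (t + 2) := by
    have h1 : -1 ≤ t * (t + 2) := by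
      have h0 := sq_nonneg (t + 1)
      linarith
    have h2 : (c : ℝ) * -1 ≤ c * (t * (t + 2)) := mul_le_mul_of_nonneg_left h1 hc0
    linarith
  have hBz : B * z / 2 = B * x2 - B * y / 2 + 2 * V := by
    rw [hz]
    field_simp
    ring
  have hU : (C : ℝ) ≤ B * z / 2 + 0.26 * B := by
    have h1 : 4 * (n : ℝ) * C ≤ 4 * n * (B * z / 2 + 0.26 * B) := by
      rw [hC, hBz]
      have e1 : 8 * (n : ℝ) * q * x2 ≤ 4 * n * (B + 1) * x2 := by
        have := mul_le_mul_of_nonneg_right hq2 (mul_nonneg hnpos.le hx20)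
        linarith
      have e2 : (n : ℝ) * (4 * x2 + 1) ≤ n * (1.04 * B) := by
        apply mul_le_mul_of_nonneg_left _ hnpos.le
        linarith
      have e3 := sq_nonneg (G + y)
      have e4 : (n : ℝ) * (c * t * (t + 2)) ≤ 0 := mul_nonpos_of_nonneg_of_nonpos hnpos.le htt1
      linarith
    exact le_of_mul_le_mul_left h1 (by positivity)
  have hL : B * z / 2 - 0.27 * B ≤ (C : ℝ) := by
    have h1 : 4 * (n : ℝ) * (B * z / 2 - 0.27 * B) ≤ 4 * n * C := by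
      rw [hC, hBz]
      have e1 : 4 * (n : ℝ) * B * x2 ≤ 8 * n * q * x2 := by
        have := mul_le_mul_of_nonneg_right hq1 (mul_nonneg hnpos.le hx20)
        linarith
      have e2 : (n : ℝ) * (n + 5) ≤ n * (1.08 * B) := by
        apply mul_le_mul_of_nonneg_left _ hnpos.le
        rw [hnR]
        linarith
      have e4 : (n : ℝ) * -5 ≤ n * (c * t * (t + 2)) := mul_le_mul_of_nonneg_left htt2 hnpos.le
      linarith
    exact le_of_mul_le_mul_left h1 (by positivity)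
  have hBzz : (B : ℝ) * 1 ≤ B * z := mul_le_mul_of_nonneg_left hz0 hBpos.le
  have hC0r : (0 : ℝ) ≤ C := by linarith
  have hC0 : 0 ≤ C := by exact_mod_cast hC0r
  have hB2 : (0 : ℤ) < 2 * B := by
    have : 0 < B := by omega
    omega
  obtain ⟨p, hp⟩ : ∃ p : ℕ, (p : ℤ) = C / (2 * B) :=
    ⟨(C / (2 * B)).toNat, Int.toNat_of_nonneg (Int.ediv_nonneg hC0 hB2.le)⟩
  have hp1 : 2 * (B : ℤ) * p ≤ C := by
    rw [hp]; exact Int.mul_ediv_self_le hB2.ne'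
  have hp2 : C < 2 * (B : ℤ) * (p + 1) := by
    rw [hp]
    have := Int.lt_ediv_add_one_mul_self C hB2
    linarith
  have hp1r : 2 * (B : ℝ) * p ≤ C := by exact_mod_cast hp1
  have hp2r : (C : ℝ) < 2 * (B : ℝ) * (p + 1) := by exact_mod_cast hp2
  have hpa : 4 * (p : ℝ) ≤ z + 0.55 := by
    have h1 : (B : ℝ) * (4 * p) ≤ B * (z + 0.55) := by linarith
    exact le_of_mul_le_mul_left h1 hBpos
  have hpb : z - 0.6 < 4 * ((p : ℝ) + 1) := by
    have h1 : (B : ℝ) * (z - 0.6) < B * (4 * (p + 1)) := by linarith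
    exact lt_of_mul_lt_mul_left h1 hBpos.le
  refine ⟨p, ?_, ?_, ?_, hpb, hpa⟩
  · have h1 : 4 * ((p : ℝ) + 1) ≤ 4 * x0 := by linarith
    have h2 : (p : ℝ) + 1 ≤ x0 := by linarith
    exact_mod_cast h2
  · zify
    rw [hCdef] at hp1
    linarith
  · zify
    rw [hCdef] at hp2
    linarith

end Pool.Agent.U390.NT
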