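import Pool.Agent.U390.NT.Win
import Pool.Agent.U390.NT.Mid
import Pool.Agent.U810.NA.Near

/-! The sign theorem for `N` clusters, `c` small points and a tail. -/

namespace Pool.Agent.U390.NT

open Finset Pool.Agent.TH176.Nag Pool.Agent.TH603.Sur Pool.Agent.TH603.Cut
open Pool.Agent.TH760.EN Pool.Agent.TH641.UM Pool.Agent.TH2.NU Pool.Agent.U605.ST
open Pool.Agent.U810.NA (Small Rest)

variable {N c μ b n T H : ℕ} {M : Multiset ℕ}

theorem EmpT (h : Small N c μ b n) (M : Multiset ℕ) {p q r d : ℕ} (hp : p + q + r = N)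
    (hwin : √(n : ℝ) * (2 * d + 3) + 2 * √(n : ℝ) / 3 + 10 <
      (4 * N * ((b + 1 : ℕ) : ℝ) + 2 * N + 2 * c * μ + c) + 4 * r - 4 * p) :
    EmpM (M + (p • {b} + (q • {b + 1} + r • {b + 2}) + c • {μ})) (TZ d) := by
  have h1 := Pool.Agent.U810.NA.EmpP h (Rest.zero N b) (p := p) (q := q) (r := r) (d := d) (by omega)
    (by simp only [Nat.cast_zero, mul_zero, sub_zero]; exact hwin)
  rw [zero_add] at h1
  exact h1.mono (Multiset.le_add_left _ _)

theorem SurT (h : Small N c μ b n) (hH : H ≤ b + 1) (ht : SurM M (Rect T H)) {p q d : ℕ}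
    (hp : p + q = N)
    (hwin : (4 * N * ((b + 1 : ℕ) : ℝ) + 2 * N + 2 * c * μ + c) - 4 * p + 4 * T +
      2 * √(n : ℝ) / 3 + 3 < √(n : ℝ) * (2 * d + 3)) :
    SurM (M + (p • {b} + q • {b + 1} + c • {μ})) (TZ d) := by
  have hs : (p • ({b} : Multiset ℕ) + q • {b + 1}).sum = p * b + q * (b + 1) := by
    simp [Multiset.sum_add, Multiset.sum_nsmul]
  have hsum : (p • ({b} : Multiset ℕ) + q • {b + 1}).sum + p = N * (b + 1) := by
    rw [hs, ← hp]
    ring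
  have hc : c ≤ 5 := by
    rcases h.hc with h1 | h1 | h1 | h1 <;> omega
  rw [add_comm M]
  refine SurWT (N := N) (b := b) ?_ h.hn hc (by have := h.hN; omega) h.hS ?_ h.hb1 h.hb2 hH ht ?_
  · simp only [Multiset.card_add, Multiset.card_nsmul, Multiset.card_singleton]
    omega
  · intro v hv
    rw [Multiset.mem_add] at hv
    rcases hv with hv | hv
    · exact Or.inl (Multiset.mem_singleton.1 (Multiset.mem_of_mem_nsmul hv))
    · exact Or.inr (Multiset.mem_singleton.1 (Multiset.mem_of_mem_nsmul hv))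
  · have h5 : ((p • ({b} : Multiset ℕ) + q • {b + 1}).sum : ℝ) + p =
        N * ((b + 1 : ℕ) : ℝ) := by exact_mod_cast hsum
    linarith

/-- the inner step -/
theorem inner (h : Small N c μ b n) (hH : H ≤ b + 1) (ht : SurM M (Rect T H))
    {d x0 x1 x2 p : ℕ} (hx : x0 + x1 + x2 = N) (h2 : 0 < x2) (hp : p ≤ x0)
    (hS : (4 * N * ((b + 1 : ℕ) : ℝ) + 2 * N + 2 * c * μ + c) - 4 * p + 4 * T +
      2 * √(n : ℝ) / 3 + 3 < √(n : ℝ) * (2 * d + 3))
    (hE : √(n : ℝ) * (2 * d + 3) + 2 * √(n : ℝ) / 3 + 10 <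
      (4 * N * ((b + 1 : ℕ) : ℝ) + 2 * N + 2 * c * μ + c) + 4 * x2 - 4 * p) :
    Sgn (x2 • q4 (b + 1) + (p • {b} + ((x0 - p) • {b + 1} + (x1 • r4 (b + 1) +
      (M + c • {μ}))))) d := by
  have hb : 1 ≤ b := by
    have := h.hb
    have := h.hN
    omega
  refine Sgn_dbl h2 ?_ ?_
  · have h1 := SurT h hH ht (d := d) (p := p) (q := x1 + x2 + (x0 - p)) (by omega) hS
    have e : x2 • ({b + 1} : Multiset ℕ) + (p • {b} + ((x0 - p) • {b + 1} + (x1 • r4 (b + 1) +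
        (M + c • {μ})))) =
        x1 • r4 (b + 1) + (M + (p • {b} + (x2 + (x0 - p)) • {b + 1} + c • {μ})) := by
      rw [add_smul]
      abel
    rw [e]
    refine exMS (by omega) ?_
    have e2 : x1 • ({b + 1} : Multiset ℕ) + (M + (p • {b} + (x2 + (x0 - p)) • {b + 1} + c • {μ})) =
        M + (p • {b} + (x1 + x2 + (x0 - p)) • {b + 1} + c • {μ}) := by
      rw [add_smul, add_smul, add_smul]
      abel
    rw [e2]
    exact h1
  · have h1 := EmpT h M (d := d) (p := p) (q := x0 - p + x1) (r := x2) (by omega) hE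
    have e : x2 • ({b + 1 + 1} : Multiset ℕ) + (p • {b} + ((x0 - p) • {b + 1} + (x1 • r4 (b + 1) +
        (M + c • {μ})))) =
        x1 • r4 (b + 1) + (M + (p • {b} + ((x0 - p) • {b + 1} + x2 • {b + 2}) + c • {μ})) := by
      abel
    rw [e]
    refine exM' (by omega) ?_
    have e2 : x1 • ({b + 1} : Multiset ℕ) + (M + (p • {b} + ((x0 - p) • {b + 1} + x2 • {b + 2}) +
        c • {μ})) = M + (p • {b} + ((x0 - p + x1) • {b + 1} + x2 • {b + 2}) + c • {μ}) := by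
      rw [add_smul]
      abel
    rw [e2]
    exact h1

/-- case A -/
theorem caseA (h : Small N c μ b n) (hH : H ≤ b + 1) (ht : SurM M (Rect T H))
    {d x0 x1 : ℕ} (hx : x0 + x1 = N) (h0 : 0 < x0)
    (hS : (4 * N * ((b + 1 : ℕ) : ℝ) + 2 * N + 2 * c * μ + c) - 4 * x0 + 4 * T +
      2 * √(n : ℝ) / 3 + 3 < √(n : ℝ) * (2 * d + 3))
    (hE : √(n : ℝ) * (2 * d + 3) + 2 * √(n : ℝ) / 3 + 10 <
      (4 * N * ((b + 1 : ℕ) : ℝ) + 2 * N + 2 * c * μ + c)) :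
    Sgn (x0 • q4 b + (x1 • r4 (b + 1) + (M + c • {μ}))) d := by
  have hb : 1 ≤ b := by
    have := h.hb
    have := h.hN
    omega
  refine Sgn_dbl h0 ?_ ?_
  · have h1 := SurT h hH ht (d := d) (p := x0) (q := x1) hx hS
    have e : x0 • ({b} : Multiset ℕ) + (x1 • r4 (b + 1) + (M + c • {μ})) =
        x1 • r4 (b + 1) + (M + (x0 • {b} + c • {μ})) := by abel
    rw [e]
    refine exMS (by omega) ?_
    have e2 : x1 • ({b + 1} : Multiset ℕ) + (M + (x0 • {b} + c • {μ})) =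
        M + (x0 • {b} + x1 • {b + 1} + c • {μ}) := by abel
    rw [e2]
    exact h1
  · have h1 := EmpT h M (d := d) (p := 0) (q := x0 + x1) (r := 0) (by omega) (by
      push_cast at hE ⊢
      linarith)
    have e : x0 • ({b + 1} : Multiset ℕ) + (x1 • r4 (b + 1) + (M + c • {μ})) =
        x1 • r4 (b + 1) + (M + (x0 • {b + 1} + c • {μ})) := by abel
    rw [e]
    refine exM' (by omega) ?_
    have e2 : x1 • ({b + 1} : Multiset ℕ) + (M + (x0 • {b + 1} + c • {μ})) =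
        M + (0 • {b} + ((x0 + x1) • {b + 1} + 0 • {b + 2}) + c • {μ}) := by
      rw [add_smul, zero_smul, zero_smul, zero_add, add_zero]
      abel
    rw [e2]
    exact h1

/-- case B -/
theorem caseB (h : Small N c μ b n) (hH : H ≤ b + 1) (ht : SurM M (Rect T H))
    {d x1 x2 : ℕ} (hx : x1 + x2 = N) (h0 : 0 < x2)
    (hS : (4 * N * ((b + 1 : ℕ) : ℝ) + 2 * N + 2 * c * μ + c) + 4 * T + 2 * √(n : ℝ) / 3 + 3 <
      √(n : ℝ) * (2 * d + 3))
    (hE : √(n : ℝ) * (2 * d + 3) + 2 * √(n : ℝ) / 3 + 10 <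
      (4 * N * ((b + 1 : ℕ) : ℝ) + 2 * N + 2 * c * μ + c) + 4 * x2) :
    Sgn (x1 • r4 (b + 1) + (x2 • q4 (b + 1) + (M + c • {μ}))) d := by
  have h1 := inner h hH ht (d := d) (x0 := 0) (x1 := x1) (x2 := x2) (p := 0) (by omega) h0 le_rfl (by
    push_cast at hS ⊢
    linarith) (by
    push_cast at hE ⊢
    linarith)
  have e : x2 • q4 (b + 1) + (0 • {b} + ((0 - 0) • {b + 1} + (x1 • r4 (b + 1) +
      (M + c • {μ})))) = x1 • r4 (b + 1) + (x2 • q4 (b + 1) + (M + c • {μ})) := by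
    rw [Nat.sub_zero, zero_smul, zero_smul, zero_add, zero_add]
    abel
  rw [e] at h1
  exact h1

/-- case C -/
theorem caseC (h : Small N c μ b n) (hH : H ≤ b + 1) (ht : SurM M (Rect T H))
    {d x0 x1 x2 V : ℕ} (hV : Pool.Agent.TH2.NU.condM M = V) (hx : x0 + x1 + x2 = N) {y : ℝ}
    (hy : y = √(n : ℝ) * (2 * d + 3) - (4 * N * ((b + 1 : ℕ) : ℝ) + 2 * N + 2 * c * μ + c))
    (hG1 : (c : ℝ) ≤ 2 * N + y + n) (hG2 : 2 * N + c + y ≤ n)
    (h1 : 2 * √(n : ℝ) / 3 + 7.6 + 4 * T ≤ 2 * x2)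
    (h2 : 2 * √(n : ℝ) / 3 + 14.6 + 4 * V / ((b + 1 : ℕ) : ℝ) ≤ 2 * x2)
    (h3 : 1 ≤ 2 * x2 - y)
    (h4 : 2 * x2 - y + 4 * V / ((b + 1 : ℕ) : ℝ) + 5 ≤ 4 * x0) :
    Sgn (x0 • q4 b + (x1 • r4 (b + 1) + (x2 • q4 (b + 1) + (M + c • {μ})))) d := by
  have hbN := h.hb
  have hNN := h.hN
  have hb0 : 1 ≤ b := by omega
  have hc5 : c ≤ 5 := by
    rcases h.hc with h1 | h1 | h1 | h1 <;> omega
  have hs0 := Real.sqrt_nonneg (n : ℝ)
  have hT0 : (0 : ℝ) ≤ T := Nat.cast_nonneg T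
  have hVB : (0 : ℝ) ≤ 4 * V / ((b + 1 : ℕ) : ℝ) := by positivity
  have hx2' : 0 < x2 := by
    have : (0 : ℝ) < x2 := by linarith
    exact_mod_cast this
  have hx0' : 0 < x0 := by
    have : (0 : ℝ) < x0 := by linarith
    exact_mod_cast this
  obtain ⟨z, hz⟩ : ∃ z : ℝ, z = 2 * x2 - y + 4 * V / ((b + 1 : ℕ) : ℝ) := ⟨_, rfl⟩
  obtain ⟨p, hp, c1, c2, c3, c4⟩ := mid (B := b + 1) (μ := μ) (V := V) (x0 := x0) (x2 := x2)
    h.hn hc5 h.hN hbN (by have := h.hb1; omega) (by have := h.hb2; omega)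
    (by omega) hy hG1 hG2 hz (by rw [hz]; linarith) (by rw [hz]; linarith)
  have i1 := inner h hH ht (d := d) (p := p) hx hx2' (by omega) (by linarith) (by linarith)
  have i2 := inner h hH ht (d := d) (p := p + 1) hx hx2' hp (by push_cast at hy ⊢; linarith)
    (by push_cast at hy ⊢; linarith)
  -- the conditions
  have hcond : ∀ p, p ≤ x0 → 2 * Pool.Agent.TH2.NU.condM (x2 • q4 (b + 1) + (p • {b} + ((x0 - p) • {b + 1} +
      (x1 • r4 (b + 1) + (M + c • {μ}))))) + 2 * (p * (b + 1)) =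
      2 * ((b + 1 + 1) / 2 * x2) + N * ((b + 1) * (b + 1 + 1)) + c * (μ * (μ + 1)) + 2 * V := by
    intro p hp
    obtain ⟨t, rfl⟩ := Nat.exists_eq_add_of_le hp
    rw [condM_add, condM_add, condM_add, condM_add, condM_add, condM_smul, condM_smul, condM_smul,
      condM_smul, condM_smul, condM_q4, condM_r4 (by omega), condM_single, condM_single,
      condM_single, ← hx, Nat.add_sub_cancel_left, hV]
    have e1 := two_choose b
    have e2 := two_choose (b + 1)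
    have e3 := two_choose μ
    obtain ⟨h, hh⟩ : ∃ h, h = (b + 1 + 1) / 2 := ⟨_, rfl⟩
    rw [← hh]
    have e5 : 2 * (x2 * ((b + 1 + 1).choose 2 + h) + (p * (b + 1).choose 2 + (t * (b + 1 + 1).choose 2 +
        (x1 * (b + 1 + 1).choose 2 + (V + c * (μ + 1).choose 2))))) =
        x2 * (2 * (b + 1 + 1).choose 2) + 2 * (h * x2) +
        p * (2 * (b + 1).choose 2) + t * (2 * (b + 1 + 1).choose 2) +
        x1 * (2 * (b + 1 + 1).choose 2) + 2 * V + c * (2 * (μ + 1).choose 2) := by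
      ring
    rw [e5, e1, e2, e3]
    ring
  have hk1 := hcond p (by omega)
  have hk2 := hcond (p + 1) hp
  have hd := two_choose' d
  have s1 := i1.1 (by omega)
  have s2 := i2.2 (by omega)
  refine Sgn_dbl hx0' ?_ ?_
  · have e1 : x2 • q4 (b + 1) + ((p + 1) • {b} + ((x0 - (p + 1)) • {b + 1} + (x1 • r4 (b + 1) +
        (M + c • {μ})))) =
        (x0 - (p + 1)) • {b + 1} + (x2 • q4 (b + 1) + (p + 1) • {b} + (x1 • r4 (b + 1) +
        (M + c • {μ}))) := by abel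
    rw [e1] at s2
    have s3 := s2.lower (Nat.le_succ b)
    have e2 : (x0 - (p + 1)) • ({b} : Multiset ℕ) + (x2 • q4 (b + 1) + (p + 1) • {b} +
        (x1 • r4 (b + 1) + (M + c • {μ}))) =
        x0 • {b} + (x1 • r4 (b + 1) + (x2 • q4 (b + 1) + (M + c • {μ}))) := by
      have e3 : x0 • ({b} : Multiset ℕ) = (x0 - (p + 1)) • {b} + (p + 1) • {b} := by
        rw [← add_smul, Nat.sub_add_cancel hp]
      rw [e3]
      abel
    rw [e2] at s3
    exact s3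
  · have e1 : x2 • q4 (b + 1) + (p • {b} + ((x0 - p) • {b + 1} + (x1 • r4 (b + 1) +
        (M + c • {μ})))) =
        p • {b} + (x2 • q4 (b + 1) + (x0 - p) • {b + 1} + (x1 • r4 (b + 1) + (M + c • {μ}))) := by
      abel
    rw [e1] at s1
    have s3 := Pool.Agent.TH2.NU.EmpM.raise (Nat.le_succ b) s1
    have e2 : p • ({b + 1} : Multiset ℕ) + (x2 • q4 (b + 1) + (x0 - p) • {b + 1} +
        (x1 • r4 (b + 1) + (M + c • {μ}))) =
        x0 • {b + 1} + (x1 • r4 (b + 1) + (x2 • q4 (b + 1) + (M + c • {μ}))) := by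
      have e3 : x0 • ({b + 1} : Multiset ℕ) = (x0 - p) • {b + 1} + p • {b + 1} := by
        rw [← add_smul, Nat.sub_add_cancel (by omega)]
      rw [e3]
      abel
    rw [e2] at s3
    exact s3

/-- all cases together -/
theorem sgn_all (h : Small N c μ b n) (hH : H ≤ b + 1) (ht : SurM M (Rect T H))
    {d κ τ V : ℕ} (hV : Pool.Agent.TH2.NU.condM M = V) {δ : ℤ} {y L1 L2 : ℝ} (hδ : |δ| ≤ N)
    (hy : y = √(n : ℝ) * (2 * d + 3) - (4 * N * ((b + 1 : ℕ) : ℝ) + 2 * N + 2 * c * μ + c))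
    (hy1 : 2 * (δ : ℝ) - L1 ≤ y) (hy2 : y ≤ 2 * (δ : ℝ) + L2)
    (k1 : 2 * √(n : ℝ) / 3 + 7.6 + 4 * T ≤ 2 * κ)
    (k2 : 2 * √(n : ℝ) / 3 + 14.6 + 4 * V / ((b + 1 : ℕ) : ℝ) ≤ 2 * κ)
    (k3 : 1 + L2 ≤ 2 * κ) (k4 : 5 + L1 + 4 * V / ((b + 1 : ℕ) : ℝ) ≤ 2 * κ)
    (t1 : 2 * √(n : ℝ) / 3 + 3 + L1 + 4 * T < 2 * (τ + 1))
    (t2 : 2 * √(n : ℝ) / 3 + 10 + L2 < 2 * (τ + 1))
    (hroom : 2 * κ + τ ≤ N) (_g1 : 2 * τ + L1 ≤ 4 * N) (g2 : 2 * τ + L2 ≤ 2 * N) :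
    ∃ x0 x1 x2 : ℕ, x0 + x1 + x2 = N ∧ (x2 : ℤ) - x0 = δ ∧
      Sgn (x0 • q4 b + (x1 • r4 (b + 1) + (x2 • q4 (b + 1) + (M + c • {μ})))) d := by
  have hs0 := Real.sqrt_nonneg (n : ℝ)
  have hT0 : (0 : ℝ) ≤ T := Nat.cast_nonneg T
  have hnR : (n : ℝ) = 4 * N + c := by rw [h.hn]; push_cast; ring
  have hτR : (0 : ℝ) ≤ τ := Nat.cast_nonneg τ
  rcases le_or_gt ((τ : ℤ) + 1) (-δ) with h1 | h1
  · -- case A
    obtain ⟨x0, hx0⟩ : ∃ x0 : ℕ, (x0 : ℤ) = -δ := ⟨(-δ).toNat, by omega⟩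
    have hxR : (x0 : ℝ) = -δ := by exact_mod_cast hx0
    have hxτ : (τ : ℝ) + 1 ≤ x0 := by
      have : ((τ : ℤ) + 1) ≤ x0 := by omega
      exact_mod_cast this
    have habs : |δ| = x0 := by rw [hx0]; exact abs_of_nonpos (by omega)
    refine ⟨x0, N - x0, 0, by omega, by omega, ?_⟩
    rw [zero_smul, zero_add]
    refine caseA h hH ht (by omega) (by omega) ?_ ?_
    · linarith
    · linarith
  rcases le_or_gt ((τ : ℤ) + 1) δ with h2 | h2
  · -- case B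
    obtain ⟨x2, hx2⟩ : ∃ x2 : ℕ, (x2 : ℤ) = δ := ⟨δ.toNat, by omega⟩
    have hxR : (x2 : ℝ) = δ := by exact_mod_cast hx2
    have hxτ : (τ : ℝ) + 1 ≤ x2 := by
      have : ((τ : ℤ) + 1) ≤ x2 := by omega
      exact_mod_cast this
    have habs : |δ| = x2 := by rw [hx2]; exact abs_of_nonneg (by omega)
    refine ⟨0, N - x2, x2, by omega, by omega, ?_⟩
    rw [zero_smul, zero_add]
    refine caseB h hH ht (by omega) (by omega) ?_ ?_
    · linarith
    · linarith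
  · -- case C
    obtain ⟨x0, hx0⟩ : ∃ x0 : ℕ, (x0 : ℤ) = κ + max (-δ) 0 := ⟨κ + (-δ).toNat, by omega⟩
    obtain ⟨x2, hx2⟩ : ∃ x2 : ℕ, (x2 : ℤ) = κ + max δ 0 := ⟨κ + δ.toNat, by omega⟩
    have hx0R : (κ : ℝ) ≤ x0 := by
      have : (κ : ℤ) ≤ x0 := by omega
      exact_mod_cast this
    have hx2R : (κ : ℝ) ≤ x2 := by
      have : (κ : ℤ) ≤ x2 := by omega
      exact_mod_cast this
    have hdiff : (x2 : ℝ) - x0 = δ := by
      have : (x2 : ℤ) - x0 = δ := by omega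
      exact_mod_cast this
    have hδ1 : (δ : ℝ) ≤ τ := by
      have : δ ≤ (τ : ℤ) := by omega
      exact_mod_cast this
    have hδ2 : -(τ : ℝ) ≤ δ := by
      have : -(τ : ℤ) ≤ δ := by omega
      exact_mod_cast this
    refine ⟨x0, N - (x0 + x2), x2, by omega, by omega, ?_⟩
    refine caseC h hH ht hV (by omega) hy ?_ ?_ ?_ ?_ ?_ ?_
    · linarith
    · linarith
    · linarith
    · linarith
    · linarith
    · linarith

end Pool.Agent.U390.NT
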