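import Pool.Agent.U390.NT.Main

/-! The expected dimension in every degree: near-uniform multiplicities, a tail and simple points. -/

namespace Pool.Agent.U390.NT

open Finset Pool.Agent.TH176.Nag Pool.Agent.TH603.Sur Pool.Agent.TH603.Cut Pool.Agent.H932R3
open Pool.Agent.TH760.EN Pool.Agent.TH641.UM Pool.Agent.TH2.NU Pool.Agent.U605.ST

/-- The multiplicities at `n` of the points are `m` or `m + 1`, `n ≤ 2 m`; the others are at most
`T`, where `24 T + 16 √n / 3 + 95 ≤ n`, and the sum of the squares of those of them which are larger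
than `1` is at most `T (m - T)`. -/
def NearTail {N : ℕ} (v : Fin N → ℕ) : Prop :=
  ∃ (n m T : ℕ) (e : Fin n ↪ Fin N), n ≤ 2 * m ∧ 24 * (T : ℝ) + 16 * √(n : ℝ) / 3 + 95 ≤ n ∧
    (∀ i, v (e i) = m ∨ v (e i) = m + 1) ∧ (∀ j, j ∉ Set.range e → v j ≤ T) ∧
    ∑ j, (if j ∈ Set.range e ∨ v j ≤ 1 then 0 else v j ^ 2) + T ^ 2 ≤ T * m

/-- **The expected dimension in every degree**, from the statement for the tail -/
theorem expDim_of_parts {N n : ℕ} (v : Fin N → ℕ) (e : Fin n ↪ Fin N)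
    (hES : ∀ d : ℕ,
      ((d + 2).choose 2 ≤ Pool.Agent.TH603.Sur.cond (Sum.elim (fun i => v (e i))
        (fun i : {j : Fin N // ¬ (j ∈ Set.range e ∨ v j ≤ 1)} => v i.1)) →
        Emp (Sum.elim (fun i => v (e i))
          (fun i : {j : Fin N // ¬ (j ∈ Set.range e ∨ v j ≤ 1)} => v i.1)) (TZ d)) ∧
      (Pool.Agent.TH603.Sur.cond (Sum.elim (fun i => v (e i))
        (fun i : {j : Fin N // ¬ (j ∈ Set.range e ∨ v j ≤ 1)} => v i.1)) ≤ (d + 2).choose 2 →
        Sur (Sum.elim (fun i => v (e i))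
          (fun i : {j : Fin N // ¬ (j ∈ Set.range e ∨ v j ≤ 1)} => v i.1)) (TZ d))) :
    ∃ F : MvPolynomial (Fin N × Fin 2) ℚ, F ≠ 0 ∧ ∀ {L : Type} [Field L] [CharZero L]
      (P : Fin N → Fin 2 → L), MvPolynomial.aeval (fun ij : Fin N × Fin 2 => P ij.1 ij.2) F ≠ 0 →
      ∀ d, ExpDim L v P d := by
  classical
  let κ := {j : Fin N // ¬ (j ∈ Set.range e ∨ v j ≤ 1)}
  let w : Fin n ⊕ κ → ℕ := Sum.elim (fun i => v (e i)) (fun i => v i.1)
  let O := {j : Fin N // j ∉ Set.range e ∧ v j = 1}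
  obtain ⟨p, hp⟩ : ∃ p, p = Fintype.card O := ⟨_, rfl⟩
  let eO : Fin p ≃ O := (Fintype.equivFinOfCardEq hp.symm).symm
  let g : (Fin n ⊕ κ) ⊕ Fin p → Fin N :=
    Sum.elim (Sum.elim (fun i => e i) (fun j => j.1)) (fun i => (eO i).1)
  let u : (Fin n ⊕ κ) ⊕ Fin p → ℕ := Sum.elim w (fun _ => 1)
  have hES' : ∀ d : ℕ, ((d + 2).choose 2 ≤ Pool.Agent.TH603.Sur.cond w → Emp w (TZ d)) ∧
      (Pool.Agent.TH603.Sur.cond w ≤ (d + 2).choose 2 → Sur w (TZ d)) := fun d => by
    have := hES d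
    convert this using 2
  clear hES
  have hgu : ∀ i, v (g i) = u i := by
    rintro ((i | i) | i)
    · rfl
    · rfl
    · exact (eO i).2.2
  have hginj : Function.Injective g := by
    rintro ((i | i) | i) ((j | j) | j) hij
    · have : i = j := e.injective hij
      rw [this]
    · exfalso
      exact j.2 (Or.inl ⟨i, hij⟩)
    · exfalso
      exact (eO j).2.1 ⟨i, hij⟩
    · exfalso
      exact i.2 (Or.inl ⟨j, hij.symm⟩)
    · have : i = j := Subtype.ext hij
      rw [this]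
    · exfalso
      have h1 : i.1 = (eO j).1 := hij
      apply i.2
      right
      rw [h1, (eO j).2.2]
    · exfalso
      exact (eO i).2.1 ⟨j, hij.symm⟩
    · exfalso
      have h1 : (eO i).1 = j.1 := hij
      apply j.2
      right
      rw [← h1, (eO i).2.2]
    · have : eO i = eO j := Subtype.ext hij
      rw [eO.injective this]
  have hg0 : ∀ j, j ∉ Set.range g → v j = 0 := by
    intro j hj
    by_contra h0
    apply hj
    by_cases h1 : j ∈ Set.range e
    · obtain ⟨i, rfl⟩ := h1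
      exact ⟨Sum.inl (Sum.inl i), rfl⟩
    by_cases h2 : v j = 1
    · exact ⟨Sum.inr (eO.symm ⟨j, h1, h2⟩), by simp [g]⟩
    exact ⟨Sum.inl (Sum.inr ⟨j, by
      rintro (h | h)
      · exact h1 h
      · omega⟩), rfl⟩
  have hcu : Pool.Agent.TH603.Sur.cond u = Pool.Agent.TH603.Sur.cond v :=
    cond_emb g hginj hgu hg0
  have hcu' : Pool.Agent.TH603.Sur.cond u = Pool.Agent.TH603.Sur.cond w + p := by
    rw [Pool.Agent.TH335.EN.cond_elim, cond_const (Fintype.card_fin _) (fun _ => rfl)]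
    simp
  refine expDim_of_sign (fun d hd => ?_) (fun d hd => ?_)
  · rw [← hcu, hcu'] at hd
    refine Emp_emb g hginj (fun i => (hgu i).ge) ?_
    rcases le_total ((d + 2).choose 2) (Pool.Agent.TH603.Sur.cond w) with h | h
    · exact Emp_emb (fun i : Fin n ⊕ κ => Sum.inl i) Sum.inl_injective (fun i => by simp [u])
        ((hES' d).1 h)
    · exact Emp_ones ((hES' d).2 h) hd
  · rw [← hcu, hcu'] at hd
    refine Sur_emb g hginj hgu hg0 ?_
    have h1 := (hES' d).2 (by omega)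
    rw [← coe_TF] at h1 ⊢
    exact Sur_ones h1 (by rw [card_TF]; exact hd)

/-- **The expected dimension in every degree** for near-uniform multiplicities with a tail -/
theorem expDim_near {N : ℕ} {v : Fin N → ℕ} (hv : NearTail v) :
    ∃ F : MvPolynomial (Fin N × Fin 2) ℚ, F ≠ 0 ∧ ∀ {L : Type} [Field L] [CharZero L]
      (P : Fin N → Fin 2 → L), MvPolynomial.aeval (fun ij : Fin N × Fin 2 => P ij.1 ij.2) F ≠ 0 →
      ∀ d, ExpDim L v P d := by
  classical
  obtain ⟨n, m, T, e, hnm, hroom, hne, hT, hQ⟩ := hv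
  refine expDim_of_parts v e fun d => ?_
  have hsum : ∑ j : {j : Fin N // ¬ (j ∈ Set.range e ∨ v j ≤ 1)}, v j.1 ^ 2 =
      ∑ j, (if j ∈ Set.range e ∨ v j ≤ 1 then 0 else v j ^ 2) := by
    rw [← sum_subtype (univ.filter fun j => ¬ (j ∈ Set.range e ∨ v j ≤ 1))
      (p := fun j => ¬ (j ∈ Set.range e ∨ v j ≤ 1)) (by simp) (fun j => v j ^ 2), sum_filter]
    refine sum_congr rfl fun j _ => ?_
    by_cases h : j ∈ Set.range e ∨ v j ≤ 1
    · rw [if_pos h, if_neg (not_not.2 h)]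
    · rw [if_neg h, if_pos h]
  have hT' : ∀ j : {j : Fin N // ¬ (j ∈ Set.range e ∨ v j ≤ 1)}, v j.1 ≤ T := fun j =>
    hT j.1 fun h => j.2 (Or.inl h)
  rw [← hsum] at hQ
  refine ES_near (T := T) hnm hne ?_ ?_ hroom d
  · refine Sur_rect hT' hT' ?_
    have e1 : T * (2 * m) = 2 * (T * m) := by ring
    rw [e1]
    nlinarith
  · refine Sur_rect hT' (fun j => (hT' j).trans (by omega)) ?_
    have e1 : 2 * T * m = 2 * (T * m) := by ring
    have e2 : 2 * T * T = 2 * T ^ 2 := by ring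
    rw [e1, e2]
    omega

end Pool.Agent.U390.NT
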