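import Pool.Agent.U390.NT.Crit
import Pool.Agent.U605.ST.Final

/-! Near-uniform vectors with a tail: the expected dimension in every degree. -/

namespace Pool.Agent.U390.NT

open Finset Pool.Agent.TH176.Nag Pool.Agent.TH603.Sur Pool.Agent.TH603.Cut Pool.Agent.H932R3
open Pool.Agent.TH760.EN Pool.Agent.TH641.UM Pool.Agent.TH2.NU Pool.Agent.U605.ST
open Pool.Agent.U810.NA (Small Rest exists_Nc ms_V')

/-- the number of conditions of a vector which is independent on a rectangle -/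
theorem cond_le_rect {κ : Type} [Fintype κ] {v : κ → ℕ} {T H : ℕ} (h : Sur v (Rect T H)) :
    Pool.Agent.TH603.Sur.cond v ≤ T * H := by
  classical
  obtain ⟨S, hS, hc, -⟩ := h
  rw [← hc]
  have h1 : S ⊆ (Finset.Ico (0 : ℤ) T) ×ˢ (Finset.Ico (0 : ℤ) H) := by
    intro p hp
    obtain ⟨a, b, c, d⟩ := hS (mem_coe.2 hp)
    rw [mem_product, mem_Ico, mem_Ico]
    exact ⟨⟨a, b⟩, ⟨c, d⟩⟩
  refine (card_le_card h1).trans ?_
  rw [card_product, Int.card_Ico, Int.card_Ico]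
  simp

/-- eight times the number of conditions -/
theorem eight_cond {ι : Type} [Fintype ι] (w : ι → ℕ) :
    8 * (Pool.Agent.TH603.Sur.cond w : ℝ) = 4 * ∑ i, (w i : ℝ) ^ 2 + 4 * ∑ i, (w i : ℝ) := by
  unfold Pool.Agent.TH603.Sur.cond
  push_cast
  rw [mul_sum, mul_sum, mul_sum, ← sum_add_distrib]
  refine sum_congr rfl fun i _ => ?_
  rw [Nat.cast_choose_two]
  push_cast
  ring

theorem eight_deg (d : ℕ) : 8 * (((d + 2).choose 2 : ℕ) : ℝ) + 1 = (2 * (d : ℝ) + 3) ^ 2 := by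
  rw [Nat.cast_choose_two]
  push_cast
  ring

section near
variable {n m : ℕ} {w : Fin n → ℕ}

/-- sums of a near-uniform vector -/
theorem near_sums (hw : ∀ i, w i = m ∨ w i = m + 1) : ∃ e : ℕ, e ≤ n ∧
    (∑ i, (w i : ℝ)) = n * m + e ∧ (∑ i, (w i : ℝ) ^ 2) = n * m ^ 2 + 2 * m * e + e := by
  refine ⟨(univ.filter fun i => w i = m + 1).card, ?_, ?_, ?_⟩
  · refine (card_filter_le _ _).trans ?_
    rw [card_univ, Fintype.card_fin]
  · have h1 : ∀ i, (w i : ℝ) = m + if w i = m + 1 then 1 else 0 := by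
      intro i
      rcases hw i with h | h
      · rw [h, if_neg (by omega)]
        simp
      · rw [h, if_pos rfl]
        push_cast
        rfl
    rw [sum_congr rfl fun i _ => h1 i, sum_add_distrib, sum_boole]
    simp
  · have h1 : ∀ i, (w i : ℝ) ^ 2 = m ^ 2 + if w i = m + 1 then (2 * m + 1 : ℝ) else 0 := by
      intro i
      rcases hw i with h | h
      · rw [h, if_neg (by omega)]
        simp
      · rw [h, if_pos rfl]
        push_cast
        ring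
    rw [sum_congr rfl fun i _ => h1 i, sum_add_distrib, ← sum_filter, sum_const, sum_const]
    simp only [card_univ, Fintype.card_fin, nsmul_eq_mul]
    ring

/-- **Emptiness and independence in every degree** for a near-uniform vector with a tail, from the
critical degrees -/
theorem ES_core {κ : Type} [Fintype κ] {v : κ → ℕ} {T : ℕ} (hn : 144 ≤ n) (h2m : n ≤ 2 * m)
    (hw : ∀ i, w i = m ∨ w i = m + 1) (hT1 : Sur v (Rect T (2 * m)))
    (hT2 : Sur v (Rect (2 * T) m)) (d : ℕ)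
    (hcrit : (n + 2 * (∑ i, (w i : ℝ))) ≤ √(n : ℝ) * (2 * d + 3) + 2 * √(n : ℝ) / 3 + 9 / 4 →
      √(n : ℝ) * (2 * d + 3) ≤ (n + 2 * (∑ i, (w i : ℝ))) + 4 * T + 2 * √(n : ℝ) / 3 + 3 / 2 →
      ((d + 2).choose 2 ≤ Pool.Agent.TH603.Sur.cond (Sum.elim w v) → Emp (Sum.elim w v) (TZ d)) ∧
      (Pool.Agent.TH603.Sur.cond (Sum.elim w v) ≤ (d + 2).choose 2 →
        Sur (Sum.elim w v) (TZ d))) :
    ((d + 2).choose 2 ≤ Pool.Agent.TH603.Sur.cond (Sum.elim w v) → Emp (Sum.elim w v) (TZ d)) ∧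
      (Pool.Agent.TH603.Sur.cond (Sum.elim w v) ≤ (d + 2).choose 2 →
        Sur (Sum.elim w v) (TZ d)) := by
  have hs0 := Real.sqrt_nonneg (n : ℝ)
  have hn0 : (0 : ℝ) ≤ n := Nat.cast_nonneg n
  have hss : √(n : ℝ) * √(n : ℝ) = n := Real.mul_self_sqrt hn0
  have hT0 : (0 : ℝ) ≤ T := Nat.cast_nonneg T
  have hn144 : (144 : ℝ) ≤ n := by exact_mod_cast hn
  have hs12 : 12 ≤ √(n : ℝ) := Real.le_sqrt_of_sq_le (by norm_num; linarith)
  obtain ⟨s, hs⟩ : ∃ s : ℝ, s = √(n : ℝ) := ⟨_, rfl⟩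
  rw [← hs] at hs0 hss hs12 hcrit
  have h2mR : (n : ℝ) ≤ 2 * m := by exact_mod_cast h2m
  obtain ⟨e, hen, hsum, hsq⟩ := near_sums hw
  have henR : (e : ℝ) ≤ n := by exact_mod_cast hen
  have he0 : (0 : ℝ) ≤ e := Nat.cast_nonneg e
  have hd0 : (0 : ℝ) ≤ d := Nat.cast_nonneg d
  -- conditions
  obtain ⟨Cw, hCw⟩ : ∃ Cw : ℕ, Cw = Pool.Agent.TH603.Sur.cond w := ⟨_, rfl⟩
  obtain ⟨Cv, hCv⟩ : ∃ Cv : ℕ, Cv = Pool.Agent.TH603.Sur.cond v := ⟨_, rfl⟩
  have hcond : Pool.Agent.TH603.Sur.cond (Sum.elim w v) = Cw + Cv := by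
    rw [Pool.Agent.TH335.EN.cond_elim, hCw, hCv]
  have h8 : 8 * (Cw : ℝ) = 4 * (n * m ^ 2 + 2 * m * e + e) + 4 * (n * m + e) := by
    rw [hCw, eight_cond, hsq, hsum]
  have hCvT : (Cv : ℝ) ≤ 2 * T * m := by
    have h1 : Cv ≤ T * (2 * m) := by
      rw [hCv]
      exact cond_le_rect hT1
    have h2 : ((Cv : ℕ) : ℝ) ≤ ((T * (2 * m) : ℕ) : ℝ) := by exact_mod_cast h1
    push_cast at h2
    linarith
  have hCv0 : (0 : ℝ) ≤ Cv := Nat.cast_nonneg Cv
  obtain ⟨G, hG⟩ : ∃ G : ℝ, G = n + 2 * (∑ i, (w i : ℝ)) := ⟨_, rfl⟩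
  have hG' : G = n + 2 * (n * m + e) := by rw [hG, hsum]
  have hGn : (n : ℝ) * (2 * m + 1) ≤ G := by
    rw [hG']
    nlinarith
  have hGnn : (n : ℝ) * n ≤ G := by nlinarith
  obtain ⟨X, hX⟩ : ∃ X : ℝ, X = s * (2 * d + 3) := ⟨_, rfl⟩
  have hX0 : 0 ≤ X := by rw [hX]; positivity
  have hX2 : X ^ 2 = n * (8 * (((d + 2).choose 2 : ℕ) : ℝ) + 1) := by
    rw [hX, mul_pow, sq s, hss, eight_deg]
  have hlowc : G ^ 2 - n ^ 2 + n ≤ n * (8 * (Cw : ℝ) + 1) := by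
    rw [h8, hG']
    nlinarith
  have hupc : (n : ℝ) * (8 * (Cw : ℝ) + 1) ≤ G ^ 2 + n := by
    rw [h8, hG']
    nlinarith [sq_nonneg ((n : ℝ) - 2 * e)]
  -- the direct windows
  have hEmp : X + 2 * s / 3 + 9 / 4 < G → Emp w (TZ d) := by
    intro h1
    refine Pool.Agent.TH434.NW.Emp_near (n := n) (m := m) (by omega) (Fintype.card_fin n)
      (fun i => by rcases hw i with h | h <;> omega) (by omega) ?_ ?_
    · rw [← hs]
      linarith
    · rw [← hs]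
      push_cast
      rw [hX, hG] at h1
      linarith
  have hSur : G + 4 * T + 2 * s / 3 + 3 / 2 < X → Sur (Sum.elim w v) (TZ d) := by
    intro h1
    have h2 : SurM (ms w + 0 • {m / 2} + ms v) (TZ d) := by
      refine SurWT (N := n) (c := 0) (μ := m / 2) (n := 4 * n) (b := m) (T := 2 * T) (H := m)
        ?_ (by omega) (by omega) (by omega) Pool.Agent.TH760.EN.hs0 ?_ (by omega) (by omega)
        (by omega) ?_ ?_
      · rw [ms_card, Fintype.card_fin]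
      · intro a ha
        simp only [ms, Multiset.mem_sum, mem_univ, true_and, Multiset.mem_singleton] at ha
        obtain ⟨i, rfl⟩ := ha
        exact hw i
      · exact (SurM_ms v _).2 hT2
      · have e1 : √((4 * n : ℕ) : ℝ) = 2 * s := by
          rw [hs]
          push_cast
          rw [Real.sqrt_mul (by norm_num), show (4 : ℝ) = 2 ^ 2 by norm_num,
            Real.sqrt_sq (by norm_num)]
        rw [e1]
        have e2 : (((ms w).sum : ℕ) : ℝ) = ∑ i, (w i : ℝ) := by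
          rw [ms_sum_val]
          push_cast
          rfl
        rw [e2]
        rw [hX, hG] at h1
        push_cast
        linarith
    rw [zero_smul, add_zero, ← ms_sum] at h2
    exact (SurM_ms _ _).1 h2
  have hEmp' : Emp w (TZ d) → Emp (Sum.elim w v) (TZ d) := fun h =>
    Emp_emb (fun i : Fin n => Sum.inl i) Sum.inl_injective (fun i => by simp) h
  rw [← hG, ← hX] at hcrit
  rcases lt_or_ge (X + 2 * s / 3 + 9 / 4) G with hlow | hlow
  · -- low degrees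
    refine ⟨fun _ => hEmp' (hEmp hlow), fun h => ?_⟩
    exfalso
    rw [hcond] at h
    have h1 : (Cw : ℝ) ≤ (((d + 2).choose 2 : ℕ) : ℝ) := by
      have : Cw ≤ (d + 2).choose 2 := by omega
      exact_mod_cast this
    have h2 : (n : ℝ) * (8 * (Cw : ℝ) + 1) ≤ X ^ 2 := by
      rw [hX2]
      exact mul_le_mul_of_nonneg_left (by linarith) hn0
    have h3 : X ^ 2 ≤ (G - 10) ^ 2 := pow_le_pow_left₀ hX0 (by linarith) 2
    nlinarith
  rcases lt_or_ge (G + 4 * T + 2 * s / 3 + 3 / 2) X with hhigh | hhigh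
  · -- high degrees
    refine ⟨fun h => ?_, fun _ => hSur hhigh⟩
    exfalso
    rw [hcond] at h
    have h1 : (((d + 2).choose 2 : ℕ) : ℝ) ≤ Cw + Cv := by exact_mod_cast h
    have h2 : X ^ 2 ≤ G ^ 2 + n + n * (8 * Cv) := by
      rw [hX2]
      have : (n : ℝ) * (8 * (((d + 2).choose 2 : ℕ) : ℝ) + 1) ≤ n * (8 * (Cw + Cv) + 1) :=
        mul_le_mul_of_nonneg_left (by linarith) hn0
      linarith
    have hG0 : 0 ≤ G := by nlinarith
    have h3 : (G + (4 * T + 1)) ^ 2 < X ^ 2 := by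
      apply pow_lt_pow_left₀ _ (by linarith) (by norm_num)
      linarith
    have h4 : (n : ℝ) * (8 * Cv) ≤ 2 * G * (4 * T) := by
      have h5 : (n : ℝ) * (8 * Cv) ≤ n * (8 * (2 * T * m)) :=
        mul_le_mul_of_nonneg_left (by linarith) hn0
      have h6 : (n : ℝ) * (2 * m) * (8 * T) ≤ G * (8 * T) := by
        apply mul_le_mul_of_nonneg_right _ (by linarith)
        linarith
      linarith
    nlinarith
  exact hcrit hlow hhigh

/-- **Emptiness and independence in every degree** for a near-uniform vector with a tail -/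
theorem ES_near {κ : Type} [Fintype κ] {v : κ → ℕ} {T : ℕ} (h2m : n ≤ 2 * m)
    (hw : ∀ i, w i = m ∨ w i = m + 1) (hT1 : Sur v (Rect T (2 * m)))
    (hT2 : Sur v (Rect (2 * T) m)) (hroom : 24 * (T : ℝ) + 16 * √(n : ℝ) / 3 + 95 ≤ n) (d : ℕ) :
    ((d + 2).choose 2 ≤ Pool.Agent.TH603.Sur.cond (Sum.elim w v) → Emp (Sum.elim w v) (TZ d)) ∧
      (Pool.Agent.TH603.Sur.cond (Sum.elim w v) ≤ (d + 2).choose 2 →
        Sur (Sum.elim w v) (TZ d)) := by
  have hs0 := Real.sqrt_nonneg (n : ℝ)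
  have hn0 : (0 : ℝ) ≤ n := Nat.cast_nonneg n
  have hss : √(n : ℝ) * √(n : ℝ) = n := Real.mul_self_sqrt hn0
  have hT0 : (0 : ℝ) ≤ T := Nat.cast_nonneg T
  have hs12' : 12.7 ≤ √(n : ℝ) := by
    by_contra hcon
    rw [not_le] at hcon
    nlinarith
  have hn161 : (161 : ℝ) ≤ n := by nlinarith
  have hn161' : 161 ≤ n := by exact_mod_cast hn161
  refine ES_core (by omega) h2m hw hT1 hT2 d fun hlow hhigh => ?_
  obtain ⟨s, hs⟩ : ∃ s : ℝ, s = √(n : ℝ) := ⟨_, rfl⟩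
  rw [← hs] at hs0 hss hroom hlow hhigh hs12'
  have h2mR : (n : ℝ) ≤ 2 * m := by exact_mod_cast h2m
  obtain ⟨e, hen, hsum, hsq⟩ := near_sums hw
  obtain ⟨Cv, hCv⟩ : ∃ Cv : ℕ, Cv = Pool.Agent.TH603.Sur.cond v := ⟨_, rfl⟩
  have hCvT : (Cv : ℝ) ≤ 2 * T * m := by
    have h1 : Cv ≤ T * (2 * m) := by
      rw [hCv]
      exact cond_le_rect hT1
    have h2 : ((Cv : ℕ) : ℝ) ≤ ((T * (2 * m) : ℕ) : ℝ) := by exact_mod_cast h1
    push_cast at h2
    linarith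
  obtain ⟨G, hG⟩ : ∃ G : ℝ, G = n + 2 * (∑ i, (w i : ℝ)) := ⟨_, rfl⟩
  obtain ⟨X, hX⟩ : ∃ X : ℝ, X = s * (2 * d + 3) := ⟨_, rfl⟩
  rw [← hG, ← hX] at hlow hhigh
  -- the critical degrees
  obtain ⟨N, c, hNc, hc, hE, hS⟩ := exists_Nc (n := n) (by omega)
  have hN39 : 39 ≤ N := by omega
  have hc5 : c ≤ 5 := by omega
  have hnR : (n : ℝ) = 4 * N + c := by rw [hNc]; push_cast; ring
  have hcR : (c : ℝ) ≤ 5 := by exact_mod_cast hc5
  obtain ⟨κ', hκ⟩ : ∃ κ' : ℕ, κ' = ⌈s / 3 + 7.3 + 2 * T⌉₊ := ⟨_, rfl⟩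
  have hκ1 : s / 3 + 7.3 + 2 * T ≤ κ' := by rw [hκ]; exact Nat.le_ceil _
  have hκ2 : (κ' : ℝ) < s / 3 + 7.3 + 2 * T + 1 := by
    rw [hκ]; exact Nat.ceil_lt_add_one (by positivity)
  obtain ⟨τ, hτ⟩ : ∃ τ : ℕ, τ = ⌊2 * s / 3 + 5.75 + 2 * T⌋₊ := ⟨_, rfl⟩
  have hτ1 : (τ : ℝ) ≤ 2 * s / 3 + 5.75 + 2 * T := by rw [hτ]; exact Nat.floor_le (by positivity)
  have hτ2 : 2 * s / 3 + 5.75 + 2 * T < (τ : ℝ) + 1 := by rw [hτ]; exact Nat.lt_floor_add_one _
  have hroom' : 2 * κ' + τ ≤ N := by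
    have h2 : 2 * (κ' : ℝ) + τ < N + 1 := by linarith
    have h3 : 2 * κ' + τ < N + 1 := by exact_mod_cast h2
    omega
  -- the sum
  have hsumN : ∑ i, w i = n * m + e := by
    have h1 : ((∑ i, w i : ℕ) : ℝ) = ((n * m + e : ℕ) : ℝ) := by
      push_cast
      rw [hsum]
    exact_mod_cast h1
  obtain ⟨b, μ, δ, hb, hμ, hb1, hb2, hδ, hsumZ⟩ : ∃ (b μ : ℕ) (δ : ℤ), (b = 2 * m ∨ b = 2 * m + 1) ∧
      (μ = m ∨ μ = m + 1) ∧ b ≤ 2 * μ + 1 ∧ 2 * μ ≤ b + 1 ∧ |δ| ≤ N ∧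
      ((∑ i, w i : ℕ) : ℤ) = N * (2 * b + 1) + δ + c * μ := by
    rcases le_or_gt e (2 * N) with h1 | h1
    · refine ⟨2 * m, m, (e : ℤ) - N, Or.inl rfl, Or.inl rfl, by omega, by omega,
        abs_le.2 (by omega), ?_⟩
      rw [hsumN, hNc]
      push_cast
      ring
    rcases le_or_gt e (4 * N) with h2 | h2
    · refine ⟨2 * m + 1, m, (e : ℤ) - 3 * N, Or.inr rfl, Or.inl rfl, by omega, by omega,
        abs_le.2 (by omega), ?_⟩
      rw [hsumN, hNc]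
      push_cast
      ring
    · refine ⟨2 * m + 1, m + 1, (e : ℤ) - 3 * N - c, Or.inr rfl, Or.inr rfl, by omega, by omega,
        abs_le.2 (by omega), ?_⟩
      rw [hsumN, hNc]
      push_cast
      ring
  have hsm : Small N c μ b n := ⟨hNc, hc, by omega, hE, hS, by omega, hb1, hb2⟩
  have hsumR : (∑ i, (w i : ℝ)) = N * (2 * b + 1) + δ + c * μ := by
    have h1 : (((∑ i, w i : ℕ) : ℤ) : ℝ) = ((N * (2 * b + 1) + δ + c * μ : ℤ) : ℝ) := by rw [hsumZ]
    push_cast at h1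
    exact h1
  obtain ⟨y, hy⟩ : ∃ y : ℝ, y = √(n : ℝ) * (2 * d + 3) -
    (4 * N * ((b + 1 : ℕ) : ℝ) + 2 * N + 2 * c * μ + c) := ⟨_, rfl⟩
  have hy' : X - G = y - 2 * δ := by
    rw [hy, hG, hsumR, hX, hs, hnR]
    push_cast
    ring
  have hVM : Pool.Agent.TH2.NU.condM (ms v) = Cv := by rw [← cond_condM, hCv]
  have hB : 4 * (Cv : ℝ) / ((b + 1 : ℕ) : ℝ) ≤ 4 * T := by
    have hb3 : (2 * m : ℝ) + 1 ≤ ((b + 1 : ℕ) : ℝ) := by
      have : 2 * m + 1 ≤ b + 1 := by omega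
      exact_mod_cast this
    have hm0 : (0 : ℝ) ≤ m := Nat.cast_nonneg m
    rw [div_le_iff₀ (by linarith)]
    have h1 : 4 * (T : ℝ) * (2 * m + 1) ≤ 4 * T * ((b + 1 : ℕ) : ℝ) :=
      mul_le_mul_of_nonneg_left hb3 (by positivity)
    linarith
  obtain ⟨x0, x1, x2, hx, hx', hsg⟩ := sgn_all hsm (M := ms v) (T := T) (H := 2 * m) (by omega)
    ((SurM_ms v _).2 hT1) (d := d) (κ := κ') (τ := τ) hVM
    (δ := δ) (y := y) (L1 := 2 * s / 3 + 9 / 4) (L2 := 2 * s / 3 + 3 / 2 + 4 * T)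
    hδ hy (by linarith) (by linarith)
    (by rw [← hs]; linarith) (by rw [← hs]; linarith) (by linarith) (by linarith)
    (by rw [← hs]; linarith) (by rw [← hs]; linarith) hroom' (by linarith) (by linarith)
  have hms : ms (Sum.elim w v) = x0 • q4 b + (x1 • r4 (b + 1) + (x2 • q4 (b + 1) +
      (ms v + c • {μ}))) := by
    rw [ms_sum, ms_V' hw hNc hb hμ hx (by zify; zify at hsumZ; linarith)]
    abel
  exact Sgn_of_ms hms hsg

/-- **Emptiness and independence in every degree** for equal multiplicities with a tail -/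
theorem ES_uni {κ : Type} [Fintype κ] {v : κ → ℕ} {T : ℕ} (hn : 149 ≤ n) (h2m : n ≤ 2 * m)
    (hw : ∀ i, w i = m) (hT1 : Sur v (Rect T (2 * m)))
    (hT2 : Sur v (Rect (2 * T) m)) (hroom : 8 * (T : ℝ) + 8 * √(n : ℝ) / 3 + 29 ≤ n) (d : ℕ) :
    ((d + 2).choose 2 ≤ Pool.Agent.TH603.Sur.cond (Sum.elim w v) → Emp (Sum.elim w v) (TZ d)) ∧
      (Pool.Agent.TH603.Sur.cond (Sum.elim w v) ≤ (d + 2).choose 2 →
        Sur (Sum.elim w v) (TZ d)) := by
  have hw' : ∀ i, w i = m ∨ w i = m + 1 := fun i => Or.inl (hw i)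
  refine ES_core (by omega) h2m hw' hT1 hT2 d fun hlow hhigh => ?_
  have hs0 := Real.sqrt_nonneg (n : ℝ)
  obtain ⟨s, hs⟩ : ∃ s : ℝ, s = √(n : ℝ) := ⟨_, rfl⟩
  rw [← hs] at hroom hlow hhigh hs0
  obtain ⟨N, c, hNc, hc, hE, hS⟩ := exists_Nc (n := n) (by omega)
  have hN36 : 36 ≤ N := by omega
  have hc5 : c ≤ 5 := by omega
  have hnR : (n : ℝ) = 4 * N + c := by rw [hNc]; push_cast; ring
  have hcR : (c : ℝ) ≤ 5 := by exact_mod_cast hc5
  have hsm : Small N c m (2 * m) n := ⟨hNc, hc, hN36, hE, hS, by omega, by omega, by omega⟩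
  have hsumR : (∑ i, (w i : ℝ)) = n * m := by
    rw [sum_congr rfl fun i _ => by rw [hw i]]
    simp
  rw [hsumR, hnR] at hlow hhigh
  have hsg := caseA hsm (M := ms v) (T := T) (H := 2 * m) (by omega) ((SurM_ms v _).2 hT1)
    (d := d) (x0 := N) (x1 := 0) (by omega) (by omega) (by rw [← hs]; push_cast; linarith)
    (by rw [← hs]; push_cast; linarith)
  have hms : ms (Sum.elim w v) = N • q4 (2 * m) + (0 • r4 (2 * m + 1) + (ms v + c • {m})) := by
    rw [ms_sum, ms_V' (x0 := N) (x1 := 0) (x2 := 0) (b := 2 * m) (μ := m) hw' hNc (Or.inl rfl)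
      (Or.inl rfl) (by omega) (by
        rw [sum_congr rfl fun i _ => hw i]
        simp only [sum_const, card_univ, Fintype.card_fin, smul_eq_mul]
        rw [hNc]
        ring)]
    rw [zero_smul, zero_smul, zero_add, zero_add, zero_add]
    abel
  exact Sgn_of_ms hms hsg

end near

end Pool.Agent.U390.NT
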