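import Pool.Agent.U810.NA.Win
import Pool.Agent.U605.ST.Rect

/-! The windows of independence with a tail of further multiplicities. -/

namespace Pool.Agent.U390.NT

open Finset Pool.Agent.TH176.Nag Pool.Agent.TH603.Sur Pool.Agent.TH603.Cut Pool.Agent.TH641.NW
open Pool.Agent.TH760.EN Pool.Agent.TH335.EN Pool.Agent.TH641.UM Pool.Agent.TH2.NU
open Pool.Agent.U810.NA Pool.Agent.U605.ST

/-- the final triangle with a strip for the tail, independence -/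
theorem Sur_fin_tail {ι κ : Type} [Fintype ι] [Fintype κ] (W : ι → ℕ) {c μ b a s : ℕ}
    (ha : a = Fintype.card ι) (hs : s = ∑ i, W i) (hW : ∀ i, b ≤ W i)
    (hW' : ∀ i, W i ≤ b + 1) (hb1 : b ≤ 2 * μ + 1) (hb2 : 2 * μ ≤ b + 1)
    (h : Sur (fun _ : Fin c => μ) (QS c μ)) {w : κ → ℕ} {T H : ℕ} (hH : H ≤ b + 1)
    (hw : Sur w (Rect T H)) :
    Sur (Sum.elim (Sum.elim W (fun _ : Fin c => μ)) w) {p : ℤ × ℤ | 0 ≤ p.1 ∧ 0 ≤ p.2 ∧
      4 * p.1 + (4 * (a : ℤ) + c) * p.2 + 4 ≤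
        4 * (s : ℤ) + 2 * (c : ℤ) * μ + c + 4 * T} := by
  have h1 := Sur_fin W ha hs hW hW' hb1 hb2 h
  have hab : (a : ℤ) * b ≤ s := by
    have h1 : Fintype.card ι * b ≤ ∑ i, W i := by
      have : Fintype.card ι * b = ∑ _i : ι, b := by simp
      rw [this]
      exact sum_le_sum fun i _ => hW i
    rw [← ha, ← hs] at h1
    exact_mod_cast h1
  have hcb : (c : ℤ) * b ≤ 2 * (c : ℤ) * μ + c := by
    have h2 : (b : ℤ) ≤ 2 * μ + 1 := by exact_mod_cast hb1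
    have h3 : (c : ℤ) * b ≤ c * (2 * μ + 1) := mul_le_mul_of_nonneg_left h2 (by positivity)
    linarith
  obtain ⟨X0, hX0⟩ : ∃ X0 : ℤ, X0 = 4 * (s : ℤ) + 2 * (c : ℤ) * μ + c := ⟨_, rfl⟩
  have h2 : Sur w {p : ℤ × ℤ | 0 ≤ p.1 ∧ 0 ≤ p.2 ∧ X0 < 4 * p.1 + (4 * (a : ℤ) + c) * p.2 + 4 ∧
      4 * p.1 + (4 * (a : ℤ) + c) * p.2 + 4 ≤ X0 + 4 * T} := by
    refine Sur_of_rows hw ?_
    intro y hy0 hyH
    obtain ⟨α, hα⟩ : ∃ α : ℤ, α = X0 - 4 - (4 * (a : ℤ) + c) * y := ⟨_, rfl⟩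
    have hyb : y ≤ b := by
      have : (H : ℤ) ≤ b + 1 := by exact_mod_cast hH
      omega
    have hα0 : -4 ≤ α := by
      have h3 : (4 * (a : ℤ) + c) * y ≤ (4 * (a : ℤ) + c) * b :=
        mul_le_mul_of_nonneg_left hyb (by positivity)
      rw [hα, hX0]
      linarith
    refine ⟨Finset.Ioc (α / 4) (α / 4 + T), ?_, ?_⟩
    · rw [Int.card_Ioc]
      omega
    · intro x hx
      rw [Finset.mem_Ioc] at hx
      refine ⟨?_, hy0, ?_, ?_⟩
      · simp only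
        omega
      · simp only
        have : α < 4 * x := by omega
        rw [hα] at this
        linarith
      · simp only
        have : 4 * x ≤ α + 4 * T := by omega
        rw [hα] at this
        linarith
  refine (Sur_cut (fun p hp => ⟨hp.1, hp.2.1⟩) (fun p hp => ⟨hp.1, hp.2.1⟩) 4 (4 * a + c) ?_
    h1 h2).mono ?_
  · rintro p ⟨k1, k2, k3⟩ p' ⟨k1', k2', k3', k4'⟩
    rw [hX0] at k3'
    linarith
  · rintro p (⟨k1, k2, k3⟩ | ⟨k1, k2, k3, k4⟩)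
    · refine ⟨k1, k2, k3.trans ?_⟩
      have : (0 : ℤ) ≤ T := by positivity
      linarith
    · exact ⟨k1, k2, by rw [← hX0]; exact k4⟩

/-- window of independence with a tail -/
theorem SurWT {P t : Multiset ℕ} {N c μ n d b T H : ℕ} (hP : P.card = N) (hn : n = 4 * N + c)
    (hc : c ≤ 5) (hN : 10 ≤ N) (hS : HS c) (hPb : ∀ v ∈ P, v = b ∨ v = b + 1)
    (hb1 : b ≤ 2 * μ + 1) (hb2 : 2 * μ ≤ b + 1) (hH : H ≤ b + 1) (ht : SurM t (Rect T H))
    (hwin : 4 * (P.sum : ℝ) + 2 * c * μ + 2 * N + c + 4 * T + 2 * √(n : ℝ) / 3 + 3 <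
      √(n : ℝ) * (2 * d + 3)) :
    SurM (P + c • {μ} + t) (TZ d) := by
  have hlen : P.toList.length = N := by rw [Multiset.length_toList, hP]
  refine (SurM_iff (w := Sum.elim (Sum.elim (fun i : Fin P.toList.length => P.toList.get i)
    (fun _ : Fin c => μ)) (fun i : Fin t.toList.length => t.toList.get i))
    (by rw [ms_sum, ms_sum, ms_toList, ms_fin, ms_toList]) _).2 ?_
  have ht' : Sur (fun i : Fin t.toList.length => t.toList.get i) (Rect T H) :=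
    (SurM_iff (ms_toList t) _).1 ht
  obtain ⟨W, hW⟩ : ∃ W : Fin P.toList.length → ℕ, W = fun i => P.toList.get i := ⟨_, rfl⟩
  have hWs : ∑ i, W i = P.sum := by
    rw [← ms_sum_val, hW, ms_toList]
  obtain ⟨s0, hs0⟩ : ∃ s0, s0 = P.sum := ⟨_, rfl⟩
  have hWb : ∀ i, W i = b ∨ W i = b + 1 := by
    intro i
    rw [hW]
    exact hPb _ (Multiset.mem_toList.1 (List.get_mem _ _))
  rw [← hs0] at hWs hwin
  rw [← hW]
  have h1 := Sur_fin_tail W (c := c) (μ := μ) (b := b) (a := N) (s := s0)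
    (by rw [Fintype.card_fin, hlen]) hWs.symm (fun i => by rcases hWb i with h | h <;> omega)
    (fun i => by rcases hWb i with h | h <;> omega) hb1 hb2 (hS μ) hH ht'
  obtain ⟨ν, hν⟩ : ∃ ν : ℝ, ν = N + (c : ℝ) / 4 := ⟨_, rfl⟩
  have hν4 : 4 * ν = n := by rw [hν, hn]; push_cast; ring
  have hsq := sqrt_nu hν4
  have hNR : (10 : ℝ) ≤ N := by exact_mod_cast hN
  have hc0 : (0 : ℝ) ≤ c := Nat.cast_nonneg c
  have hc5 : (c : ℝ) ≤ 5 := by exact_mod_cast hc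
  obtain ⟨Z, hZ1, hZ2⟩ : ∃ Z : ℝ, s0 + c * μ / 2 + (c : ℝ) / 4 - 1 + T < Z ∧
      Z < √(n : ℝ) / 2 * (d + 3 / 2) - ν / 2 - √(n : ℝ) / 2 / 3 - 9 / 8 := by
    apply _root_.exists_between
    have h2 : ν / 2 = N / 2 + (c : ℝ) / 8 := by rw [hν]; ring
    rw [h2]
    linarith
  refine Sur_nu (ν := ν) (Z := Z) (by rw [hν]; linarith) ?_ ?_
  · refine h1.mono ?_
    rintro ⟨x, y⟩ ⟨h2, h3, h4⟩
    simp only at h2 h3 h4
    refine ⟨h2, h3, ?_⟩
    simp only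
    have h5 : 4 * (x : ℝ) + (4 * N + c) * y + 4 ≤ 4 * s0 + 2 * c * μ + c + 4 * T := by
      have h6 : ((4 * x + (4 * (N : ℤ) + c) * y + 4 : ℤ) : ℝ) ≤
        ((4 * (s0 : ℤ) + 2 * (c : ℤ) * μ + c + 4 * T : ℤ) : ℝ) := Int.cast_le.2 h4
      push_cast at h6
      exact h6
    have e : 4 * (ν * (y : ℝ)) = (4 * N + c) * y := by rw [hν]; ring
    rw [← e] at h5
    linarith
  · rw [hsq]
    linarith

end Pool.Agent.U390.NT
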